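import Pool.Agent.helper35.DR.SpecT

/-!
# Project dr: TNM: norms of the cosets
-/

set_option autoImplicit false

namespace Pool.Agent.DR

open Pool.Agent.helper58.DC Pool.Agent.DI

/-- operators which commute with a representation with one-dimensional commutant are scalar -/
theorem TNM_schur {K : Type} [Group K] {V : Type} [AddCommGroup V] [Module ℂ V]
    [FiniteDimensional ℂ V] (ρ : Representation ℂ K V)
    (hfr : Module.finrank ℂ (ρ.IntertwiningMap ρ) = 1) (X : Module.End ℂ V)
    (hX : ∀ g, X * ρ g = ρ g * X) : ∃ c : ℂ, X = c • (1 : Module.End ℂ V) := by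
  let g : ρ.IntertwiningMap ρ := ⟨X, fun g => hX g⟩
  let e : ρ.IntertwiningMap ρ := ⟨LinearMap.id, fun g => rfl⟩
  have he : e ≠ 0 := by
    intro h
    have hnt : Nontrivial (ρ.IntertwiningMap ρ) := by
      refine Module.nontrivial_of_finrank_pos (R := ℂ) ?_
      rw [hfr]
      exact one_pos
    obtain ⟨f, hf⟩ := exists_ne (0 : ρ.IntertwiningMap ρ)
    have h1 : e.toLinearMap = (0 : V →ₗ[ℂ] V) := by rw [h]; rfl
    have h2 : ∀ v : V, v = 0 := fun v => by
      have := congrArg (fun F : V →ₗ[ℂ] V => F v) h1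
      exact this
    apply hf
    apply Representation.IntertwiningMap.toLinearMap_injective
    ext v
    rw [h2 v, map_zero, map_zero]
  obtain ⟨c, hc⟩ := exists_smul_eq_of_finrank_eq_one hfr he g
  refine ⟨c, ?_⟩
  have h1 := congrArg Representation.IntertwiningMap.toLinearMap hc
  have h2 : (c • e).toLinearMap = c • (1 : Module.End ℂ V) := rfl
  rw [h2] at h1
  exact h1.symm

/-- the average of the conjugates -/
theorem TNM_avg {K : Type} [Group K] [Fintype K] {V : Type} [AddCommGroup V] [Module ℂ V]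
    [FiniteDimensional ℂ V] (ρ : Representation ℂ K V)
    (hfr : Module.finrank ℂ (ρ.IntertwiningMap ρ) = 1) (X : Module.End ℂ V) :
    (Module.finrank ℂ V : ℂ) • ∑ h, ρ h * X * ρ h⁻¹ =
      ((Fintype.card K : ℂ) * LinearMap.trace ℂ V X) • (1 : Module.End ℂ V) := by
  have hcomm : ∀ g, (∑ h, ρ h * X * ρ h⁻¹) * ρ g = ρ g * ∑ h, ρ h * X * ρ h⁻¹ := by
    intro g
    rw [Finset.sum_mul, Finset.mul_sum]
    refine Fintype.sum_equiv (Equiv.mulLeft g⁻¹) _ _ fun h => ?_
    simp only [Equiv.coe_mulLeft, mul_inv_rev, inv_inv, map_mul]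
    simp only [← mul_assoc]
    rw [← map_mul, mul_inv_cancel, map_one, one_mul]
  obtain ⟨c, hc⟩ := TNM_schur ρ hfr _ hcomm
  have htr : LinearMap.trace ℂ V (∑ h, ρ h * X * ρ h⁻¹) =
      (Fintype.card K : ℂ) * LinearMap.trace ℂ V X := by
    rw [map_sum]
    have : ∀ h : K, LinearMap.trace ℂ V (ρ h * X * ρ h⁻¹) = LinearMap.trace ℂ V X := by
      intro h
      rw [LinearMap.trace_mul_comm, ← mul_assoc, ← map_mul, inv_mul_cancel, map_one, one_mul]
    simp only [this, Finset.sum_const, Finset.card_univ, nsmul_eq_mul]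
  rw [hc, map_smul, LinearMap.trace_one, smul_eq_mul] at htr
  rw [hc, ← htr, smul_smul, mul_comm]

/-- the orthogonality relation for traces -/
theorem TNM_orth {K : Type} [Group K] [Fintype K] {V : Type} [AddCommGroup V] [Module ℂ V]
    [FiniteDimensional ℂ V] (ρ : Representation ℂ K V)
    (hfr : Module.finrank ℂ (ρ.IntertwiningMap ρ) = 1) (A B : Module.End ℂ V) :
    (Module.finrank ℂ V : ℂ) * ∑ h, LinearMap.trace ℂ V (A * ρ h) *
      LinearMap.trace ℂ V (ρ h⁻¹ * B) =
      (Fintype.card K : ℂ) * LinearMap.trace ℂ V (A * B) := by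
  classical
  let b := Module.finBasis ℂ V
  set n := Module.finrank ℂ V with hn
  have htr : ∀ F : Module.End ℂ V, LinearMap.trace ℂ V F = ∑ i, b.repr (F (b i)) i := by
    intro F
    rw [LinearMap.trace_eq_matrix_trace ℂ b, Matrix.trace]
    simp only [Matrix.diag_apply, LinearMap.toMatrix_apply]
  -- rank one operators
  have hkey : ∀ i j : Fin n, (n : ℂ) * ∑ h, b.repr (A (ρ h (b i))) i *
      b.repr (ρ h⁻¹ (B (b j))) j =
      if i = j then (Fintype.card K : ℂ) * b.repr (A (B (b j))) i else 0 := by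
    intro i j
    let X : Module.End ℂ V := (b.coord j).smulRight (b i)
    have hX : ∀ w, X w = b.repr w j • b i := fun w => rfl
    have htX : LinearMap.trace ℂ V X = if i = j then 1 else 0 := by
      rw [htr]
      simp only [hX, map_smul, Module.Basis.repr_self, Finsupp.smul_apply, smul_eq_mul]
      rw [Finset.sum_eq_single j]
      · simp [Finsupp.single_apply]
      · intro k _ hk
        simp [Finsupp.single_apply, hk]
      · simp
    have h1 := TNM_avg ρ hfr X
    have h2 := congrArg (fun F : Module.End ℂ V => b.repr (A (F (B (b j)))) i) h1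
    simp only [LinearMap.smul_apply, LinearMap.sum_apply, Module.End.mul_apply, hX, map_smul,
      map_sum, Module.End.one_apply, Finsupp.smul_apply, smul_eq_mul, Finsupp.coe_finsetSum,
      Finset.sum_apply] at h2
    rw [htX] at h2
    have h3 : ∀ h : K, b.repr (A (ρ h (b i))) i * b.repr (ρ h⁻¹ (B (b j))) j =
        b.repr (ρ h⁻¹ (B (b j))) j * b.repr (A (ρ h (b i))) i := fun h => mul_comm _ _
    simp only [h3]
    refine h2.trans ?_
    split_ifs <;> simp
  have h4 : ∀ h : K, LinearMap.trace ℂ V (A * ρ h) * LinearMap.trace ℂ V (ρ h⁻¹ * B) =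
      ∑ i, ∑ j, b.repr (A (ρ h (b i))) i * b.repr (ρ h⁻¹ (B (b j))) j := by
    intro h
    rw [htr, htr, Finset.sum_mul_sum]
    rfl
  simp only [h4]
  rw [Finset.sum_comm, Finset.mul_sum]
  have h5 : ∀ i : Fin n, (n : ℂ) * ∑ h, ∑ j, b.repr (A (ρ h (b i))) i *
      b.repr (ρ h⁻¹ (B (b j))) j = (Fintype.card K : ℂ) * b.repr (A (B (b i))) i := by
    intro i
    rw [Finset.sum_comm, Finset.mul_sum]
    simp only [hkey]
    rw [Finset.sum_ite_eq Finset.univ i]
    simp
  simp only [h5]
  rw [← Finset.mul_sum, htr (A * B)]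
  rfl

theorem TNM : TNM_stmt := by
  classical
  intro Γ Q _ _ _ q S ψ hψ α hα V _ _ _ T hT s hs
  have : Fintype Γ := Fintype.ofFinite Γ
  set K : Subgroup Γ := S ⊓ q.ker with hK
  have : Fintype K := Fintype.ofFinite K
  obtain ⟨-, hα1, hα2⟩ := hα
  have hKS : ∀ h ∈ K, h ∈ S := fun h hh => (Subgroup.mem_inf.mp hh).1
  have hKq : ∀ h ∈ K, q h = 1 := fun h hh => (Subgroup.mem_inf.mp hh).2
  -- the representation of `K`
  let ρ : Representation ℂ K V :=
    { toFun := fun h => T h
      map_one' := by simpa using hT.one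
      map_mul' := by
        intro x y
        have := hT.mul x (hKS _ x.2) y (hKS _ y.2)
        rw [hKq _ x.2, hα1] at this
        simpa using this.symm }
  have hρ : ∀ h : K, ρ h = T h := fun _ => rfl
  obtain ⟨-, V', iV, iM, iF, ρ', hirr, hchar⟩ := hψ
  have hcardne : (Nat.card K : ℂ) ≠ 0 := by
    exact_mod_cast Nat.card_pos.ne'
  have : Invertible (Nat.card K : ℂ) := invertibleOfNonzero hcardne
  have hσc : ρ.character = ρ'.character := by
    rw [hchar]
    funext n
    show LinearMap.trace ℂ V (ρ n) = ψ n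
    rw [hρ, hT.tr n n.2]
  have hfr : Module.finrank ℂ (ρ.IntertwiningMap ρ) = 1 := by
    have h1 := Representation.card_inv_mul_sum_char_mul_char_eq_finrank ρ ρ
    rw [hσc, Representation.card_inv_mul_sum_char_mul_char_eq_finrank ρ' ρ',
      Representation.IsIrreducible.finrank_intertwiningMap_self] at h1
    exact_mod_cast h1.symm
  have hVpos : (Module.finrank ℂ V : ℂ) ≠ 0 := by
    have hnt' : Nontrivial (ρ.IntertwiningMap ρ) := by
      refine Module.nontrivial_of_finrank_pos (R := ℂ) ?_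
      rw [hfr]
      exact one_pos
    have hnt : Nontrivial V := by
      by_contra hV
      rw [not_nontrivial_iff_subsingleton] at hV
      obtain ⟨f, hf⟩ := exists_ne (0 : ρ.IntertwiningMap ρ)
      apply hf
      apply Representation.IntertwiningMap.toLinearMap_injective
      ext v
      exact Subsingleton.elim _ _
    have := Module.finrank_pos (R := ℂ) (M := V)
    exact_mod_cast this.ne'
  set c : ℂ := ((α (q s) (q s)⁻¹ : ℂˣ) : ℂ) with hc
  have hc0 : c ≠ 0 := Units.ne_zero _
  have hss : T s * T s⁻¹ = c • (1 : Module.End ℂ V) := by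
    rw [hT.mul s hs s⁻¹ (S.inv_mem hs), map_inv, mul_inv_cancel, hT.one]
  have e1 : ∀ h ∈ K, T (s * h) = T s * T h := by
    intro h hh
    rw [hT.mul s hs h (hKS h hh), hKq h hh, hα2]
    simp
  have e2 : ∀ h ∈ K, T (s * h)⁻¹ = T h⁻¹ * T s⁻¹ := by
    intro h hh
    rw [hT.mul h⁻¹ (S.inv_mem (hKS h hh)) s⁻¹ (S.inv_mem hs), map_inv, hKq h hh, inv_one, hα1,
      mul_inv_rev]
    simp
  have h1 := TNM_orth ρ hfr (T s) (T s⁻¹)
  rw [hss, map_smul, LinearMap.trace_one, smul_eq_mul] at h1
  have h2 : ∑ h : K, LinearMap.trace ℂ V (T s * ρ h) * LinearMap.trace ℂ V (ρ h⁻¹ * T s⁻¹) =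
      (Fintype.card K : ℂ) * c := by
    apply mul_left_cancel₀ hVpos
    rw [h1]
    ring
  have h3 : (∑ᶠ h ∈ (K : Set Γ), LinearMap.trace ℂ V (T (s * h)) *
      LinearMap.trace ℂ V (T (s * h)⁻¹) * c⁻¹) = ∑ h : K, LinearMap.trace ℂ V (T s * ρ h) *
      LinearMap.trace ℂ V (ρ h⁻¹ * T s⁻¹) * c⁻¹ := by
    rw [← finsum_set_coe_eq_finsum_mem]
    rw [finsum_eq_sum_of_fintype]
    refine Finset.sum_congr rfl fun h _ => ?_
    rw [e1 h h.2, e2 h h.2]
    rfl
  rw [h3, ← Finset.sum_mul, h2, mul_assoc, mul_inv_cancel₀ hc0, mul_one, Nat.card_eq_fintype_card]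

end Pool.Agent.DR
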